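import Mathlib
import Pool.Agent.FF24.Defs

set_option autoImplicit false

/-!
# FF85/NecS: small lemmas for the necessity
-/

open Set Metric
open scoped RealInnerProductSpace

namespace Pool.FF85

variable {E : Type*} [NormedAddCommGroup E] [InnerProductSpace ℝ E]

/-- two independent vectors: the inner products with them can be prescribed -/
theorem exists_dual {e f : E} (h : LinearIndependent ℝ ![e, f]) (s t : ℝ) :
    ∃ x : E, ⟪e, x⟫ = s ∧ ⟪f, x⟫ = t := by
  -- Gram determinant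
  have hG : 0 < ⟪e, e⟫ * ⟪f, f⟫ - ⟪e, f⟫ * ⟪e, f⟫ := by
    rw [LinearIndependent.pair_iff] at h
    have hf : f ≠ 0 := by
      rintro rfl
      have := (h 0 1 (by simp)).2
      exact one_ne_zero this
    have hff : (0 : ℝ) < ⟪f, f⟫ := by
      rw [real_inner_self_eq_norm_sq]
      have := norm_pos_iff.2 hf
      positivity
    have hx : ⟪f, f⟫ • e - ⟪e, f⟫ • f ≠ 0 := by
      intro h0
      have h1 := (h ⟪f, f⟫ (-⟪e, f⟫) (by rw [neg_smul, ← sub_eq_add_neg]; exact h0)).1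
      exact hff.ne' h1
    have h2 : (0 : ℝ) < ⟪⟪f, f⟫ • e - ⟪e, f⟫ • f, ⟪f, f⟫ • e - ⟪e, f⟫ • f⟫ := by
      rw [real_inner_self_eq_norm_sq]
      have := norm_pos_iff.2 hx
      positivity
    have h3 : ⟪⟪f, f⟫ • e - ⟪e, f⟫ • f, ⟪f, f⟫ • e - ⟪e, f⟫ • f⟫ =
        ⟪f, f⟫ * (⟪e, e⟫ * ⟪f, f⟫ - ⟪e, f⟫ * ⟪e, f⟫) := by
      simp only [inner_sub_left, inner_sub_right, real_inner_smul_left, real_inner_smul_right]
      rw [real_inner_comm e f]
      ring
    rw [h3] at h2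
    exact (mul_pos_iff_of_pos_left hff).1 h2
  set G := ⟪e, e⟫ * ⟪f, f⟫ - ⟪e, f⟫ * ⟪e, f⟫ with hGdef
  refine ⟨((s * ⟪f, f⟫ - t * ⟪e, f⟫) / G) • e + ((t * ⟪e, e⟫ - s * ⟪e, f⟫) / G) • f, ?_, ?_⟩
  · rw [inner_add_right, real_inner_smul_right, real_inner_smul_right]
    field_simp
    rw [hGdef]
    ring
  · rw [inner_add_right, real_inner_smul_right, real_inner_smul_right, real_inner_comm e f]
    field_simp
    rw [hGdef]
    ring

/-- coordinates of a sequence with a two-term recursion; the determinants stay positive -/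
theorem coords (e : ℕ → E) (h : ∀ r, ∃ α β : ℝ, 0 < α ∧ e (r + 2) = -(α • e r) + β • e (r + 1)) :
    ∃ p q : ℕ → ℝ, (∀ r, e r = p r • e 0 + q r • e 1) ∧ p 0 = 1 ∧ q 0 = 0 ∧ p 1 = 0 ∧ q 1 = 1 ∧
      ∀ r, 0 < p r * q (r + 1) - p (r + 1) * q r := by
  choose α β hα he using h
  -- the pairs of coordinates
  let c : ℕ → (ℝ × ℝ) × (ℝ × ℝ) := fun n => Nat.rec ((1, 0), (0, 1))
    (fun n x => (x.2, (-(α n) * x.1.1 + β n * x.2.1, -(α n) * x.1.2 + β n * x.2.2))) n
  have hc : ∀ n, c (n + 1) = ((c n).2, (-(α n) * (c n).1.1 + β n * (c n).2.1,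
      -(α n) * (c n).1.2 + β n * (c n).2.2)) := fun n => rfl
  have hc1 : ∀ n, (c (n + 1)).1 = (c n).2 := fun n => by rw [hc]
  refine ⟨fun n => (c n).1.1, fun n => (c n).1.2, ?_, rfl, rfl, ?_, ?_, ?_⟩
  · have key : ∀ r, e r = (c r).1.1 • e 0 + (c r).1.2 • e 1 ∧
        e (r + 1) = (c r).2.1 • e 0 + (c r).2.2 • e 1 := by
      intro r
      induction r with
      | zero =>
        constructor
        · show e 0 = (1 : ℝ) • e 0 + (0 : ℝ) • e 1
          rw [one_smul, zero_smul, add_zero]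
        · show e 1 = (0 : ℝ) • e 0 + (1 : ℝ) • e 1
          rw [one_smul, zero_smul, zero_add]
      | succ r ih =>
        refine ⟨?_, ?_⟩
        · rw [hc1]
          exact ih.2
        · rw [hc]
          show e (r + 2) = _
          rw [he r, ih.2]
          nth_rewrite 1 [ih.1]
          simp only [smul_add, smul_smul, add_smul, neg_mul, neg_smul]
          abel
    exact fun r => (key r).1
  · show (c (0 + 1)).1.1 = 0
    rw [hc1]
    rfl
  · show (c (0 + 1)).1.2 = 1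
    rw [hc1]
    rfl
  · intro r
    show 0 < (c r).1.1 * (c (r + 1)).1.2 - (c (r + 1)).1.1 * (c r).1.2
    rw [hc1]
    induction r with
    | zero =>
      show (0 : ℝ) < 1 * 1 - 0 * 0
      norm_num
    | succ r ih =>
      rw [hc]
      show 0 < (c r).2.1 * (-(α r) * (c r).1.2 + β r * (c r).2.2) -
        (-(α r) * (c r).1.1 + β r * (c r).2.1) * (c r).2.2
      have h1 : (c r).2.1 * (-(α r) * (c r).1.2 + β r * (c r).2.2) -
        (-(α r) * (c r).1.1 + β r * (c r).2.1) * (c r).2.2 =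
        α r * ((c r).1.1 * (c r).2.2 - (c r).2.1 * (c r).1.2) := by ring
      rw [h1]
      exact mul_pos (hα r) ih

variable {P : FF24.HPoly E}

/-- open cones of different pairs are disjoint -/
theorem cone_disj {a b : E × E} {y y' : E} (hy : y ∈ P.body) (ha : P.act y = {a.1, a.2})
    (hy' : y' ∈ P.body) (hb : P.act y' = {b.1, b.2}) {α β γ δ : ℝ} (hα : 0 < α) (hβ : 0 < β)
    (hγ : 0 < γ) (hδ : 0 < δ) (h : α • a.1 + β • a.2 = γ • b.1 + δ • b.2) :
    ({a.1, a.2} : Set E) = {b.1, b.2} := by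
  have ha1 : a.1 ∈ P.act y := by rw [ha]; exact mem_insert _ _
  have ha2 : a.2 ∈ P.act y := by rw [ha]; exact mem_insert_of_mem _ rfl
  have hb1 : b.1 ∈ P.act y' := by rw [hb]; exact mem_insert _ _
  have hb2 : b.2 ∈ P.act y' := by rw [hb]; exact mem_insert_of_mem _ rfl
  -- values
  have e1 : ⟪α • a.1 + β • a.2, y⟫ = α * P.h a.1 + β * P.h a.2 := by
    rw [inner_add_left, real_inner_smul_left, real_inner_smul_left, ha1.2, ha2.2]
  have e2 : ⟪α • a.1 + β • a.2, y'⟫ ≤ α * P.h a.1 + β * P.h a.2 := by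
    rw [inner_add_left, real_inner_smul_left, real_inner_smul_left]
    have h1 := mul_le_mul_of_nonneg_left (hy' a.1 ha1.1) hα.le
    have h2 := mul_le_mul_of_nonneg_left (hy' a.2 ha2.1) hβ.le
    linarith
  have e3 : ⟪γ • b.1 + δ • b.2, y'⟫ = γ * P.h b.1 + δ * P.h b.2 := by
    rw [inner_add_left, real_inner_smul_left, real_inner_smul_left, hb1.2, hb2.2]
  have e4 : ⟪γ • b.1 + δ • b.2, y⟫ ≤ γ * P.h b.1 + δ * P.h b.2 := by
    rw [inner_add_left, real_inner_smul_left, real_inner_smul_left]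
    have h1 := mul_le_mul_of_nonneg_left (hy b.1 hb1.1) hγ.le
    have h2 := mul_le_mul_of_nonneg_left (hy b.2 hb2.1) hδ.le
    linarith
  rw [← h] at e3 e4
  have e5 : ⟪α • a.1 + β • a.2, y'⟫ = α * P.h a.1 + β * P.h a.2 := le_antisymm e2 (by
    rw [e3, ← e1]; exact e4)
  have e6 : ⟪α • a.1 + β • a.2, y⟫ = γ * P.h b.1 + δ * P.h b.2 := by
    rw [← e3, e1, e5]
  -- `a.1, a.2` are active at `y'`
  have f1 : a.1 ∈ P.act y' ∧ a.2 ∈ P.act y' := by
    rw [inner_add_left, real_inner_smul_left, real_inner_smul_left] at e5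
    have h1 := hy' a.1 ha1.1
    have h2 := hy' a.2 ha2.1
    have h3 := mul_le_mul_of_nonneg_left h1 hα.le
    have h4 := mul_le_mul_of_nonneg_left h2 hβ.le
    refine ⟨⟨ha1.1, ?_⟩, ⟨ha2.1, ?_⟩⟩
    · have h5 : α * ⟪a.1, y'⟫ = α * P.h a.1 := by linarith
      exact mul_left_cancel₀ hα.ne' h5
    · have h5 : β * ⟪a.2, y'⟫ = β * P.h a.2 := by linarith
      exact mul_left_cancel₀ hβ.ne' h5
  have f2 : b.1 ∈ P.act y ∧ b.2 ∈ P.act y := by
    rw [h, inner_add_left, real_inner_smul_left, real_inner_smul_left] at e6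
    have h1 := hy b.1 hb1.1
    have h2 := hy b.2 hb2.1
    have h3 := mul_le_mul_of_nonneg_left h1 hγ.le
    have h4 := mul_le_mul_of_nonneg_left h2 hδ.le
    refine ⟨⟨hb1.1, ?_⟩, ⟨hb2.1, ?_⟩⟩
    · have h5 : γ * ⟪b.1, y⟫ = γ * P.h b.1 := by linarith
      exact mul_left_cancel₀ hγ.ne' h5
    · have h5 : δ * ⟪b.2, y⟫ = δ * P.h b.2 := by linarith
      exact mul_left_cancel₀ hδ.ne' h5
  rw [hb] at f1
  rw [ha] at f2
  apply Subset.antisymm
  · rintro x (rfl | hx)
    · exact f1.1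
    · rw [mem_singleton_iff.1 hx]
      exact f1.2
  · rintro x (rfl | hx)
    · exact f2.1
    · rw [mem_singleton_iff.1 hx]
      exact f2.2

end Pool.FF85
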