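import Mathlib
import Pool.Agent.FF24.Defs

set_option autoImplicit false

/-!
# FF85/BadCov: the bad points lie in countably many affine subspaces of codimension three
-/

open Set
open scoped RealInnerProductSpace

namespace Pool.FF85

variable {E : Type*} [NormedAddCommGroup E] [InnerProductSpace ℝ E] [FiniteDimensional ℝ E]

/-- three independent linear equations -/
theorem codim_three {u v w : E} (hi : LinearIndependent ℝ ![u, v, w]) (a b c : ℝ) :
    ∃ A : AffineSubspace ℝ E, Module.finrank ℝ A.direction + 3 ≤ Module.finrank ℝ E ∧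
      ∀ z, ⟪u, z⟫ = a → ⟪v, z⟫ = b → ⟪w, z⟫ = c → z ∈ A := by
  have h3 : Module.finrank ℝ (Submodule.span ℝ (Set.range ![u, v, w])) = 3 := by
    rw [finrank_span_eq_card hi]
    simp
  have hle : 3 ≤ Module.finrank ℝ E := by
    rw [← h3]
    exact Submodule.finrank_le _
  by_cases hne : ∃ z, ⟪u, z⟫ = a ∧ ⟪v, z⟫ = b ∧ ⟪w, z⟫ = c
  · obtain ⟨z₀, hu, hv, hw⟩ := hne
    refine ⟨AffineSubspace.mk' z₀ (Submodule.span ℝ (Set.range ![u, v, w]))ᗮ, ?_, ?_⟩
    · rw [AffineSubspace.direction_mk']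
      have h4 := Submodule.finrank_add_finrank_orthogonal
        (Submodule.span ℝ (Set.range ![u, v, w]))
      omega
    · intro z hzu hzv hzw
      rw [AffineSubspace.mem_mk', vsub_eq_sub, Submodule.mem_orthogonal]
      intro x hx
      have h5 : Submodule.span ℝ (Set.range ![u, v, w]) ≤ (Submodule.span ℝ {z - z₀})ᗮ := by
        rw [Submodule.span_le]
        rintro _ ⟨i, rfl⟩
        rw [SetLike.mem_coe, Submodule.mem_orthogonal_singleton_iff_inner_left]
        fin_cases i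
        · show ⟪u, z - z₀⟫ = 0
          rw [inner_sub_right, hzu, hu, sub_self]
        · show ⟪v, z - z₀⟫ = 0
          rw [inner_sub_right, hzv, hv, sub_self]
        · show ⟪w, z - z₀⟫ = 0
          rw [inner_sub_right, hzw, hw, sub_self]
      exact Submodule.mem_orthogonal_singleton_iff_inner_left.1 (h5 hx)
  · refine ⟨⊥, ?_, fun z h1 h2 h3' => absurd ⟨z, h1, h2, h3'⟩ hne⟩
    rw [AffineSubspace.direction_bot, finrank_bot]
    omega

omit [FiniteDimensional ℝ E] in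
/-- the labels are countable -/
theorem orb_countable {P : FF24.HPoly E} (g : FF24.Glue P) : {τ : ℝ × E | g.Orb τ}.Countable := by
  have h1 : {τ : ℝ × E | g.Orb τ} ⊆
      Set.range (fun l : List P.N => l.foldr (fun (u : P.N) (τ : ℝ × E) => g.nb (u : E) τ) ((1, 0) : ℝ × E)) := by
    intro τ hτ
    induction hτ with
    | base => exact ⟨[], rfl⟩
    | step h hu ih =>
      obtain ⟨l, hl⟩ := ih
      refine ⟨⟨_, hu⟩ :: l, ?_⟩
      exact congrArg (fun τ => g.nb _ τ) hl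
  exact (Set.countable_range _).mono h1

omit [FiniteDimensional ℝ E] in
/-- the sign of a label -/
theorem orb_sign {P : FF24.HPoly E} (g : FF24.Glue P) {τ : ℝ × E} (h : g.Orb τ) :
    τ.1 = 1 ∨ τ.1 = -1 := by
  induction h with
  | base => exact Or.inl rfl
  | step h hu ih =>
    unfold FF24.Glue.nb
    split_ifs
    · rcases ih with ih | ih
      · right; simp [ih]
      · left; simp [ih]
    · exact ih

/-- BAD is covered by countably many affine subspaces of codimension three -/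
theorem bad_cover {P : FF24.HPoly E} (g : FF24.Glue P) :
    ∃ AA : Set (AffineSubspace ℝ E), AA.Countable ∧
      (∀ A ∈ AA, Module.finrank ℝ A.direction + 3 ≤ Module.finrank ℝ E) ∧
      ∀ z ∈ g.Bad, ∃ A ∈ AA, z ∈ A := by
  classical
  let ι := {τ : ℝ × E // g.Orb τ} × P.N × P.N × P.N
  have hc : Countable {τ : ℝ × E // g.Orb τ} := (orb_countable g).to_subtype
  have key : ∀ q : ι, ∃ A : AffineSubspace ℝ E,
      LinearIndependent ℝ ![(q.2.1 : E), (q.2.2.1 : E), (q.2.2.2 : E)] →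
      Module.finrank ℝ A.direction + 3 ≤ Module.finrank ℝ E ∧
      ∀ p, ⟪(q.2.1 : E), FF24.crd q.1.1 p⟫ = P.h q.2.1 →
        ⟪(q.2.2.1 : E), FF24.crd q.1.1 p⟫ = P.h q.2.2.1 →
        ⟪(q.2.2.2 : E), FF24.crd q.1.1 p⟫ = P.h q.2.2.2 → p ∈ A := by
    rintro ⟨⟨τ, hτ⟩, u, v, w⟩
    by_cases hi : LinearIndependent ℝ ![(u : E), (v : E), (w : E)]
    · obtain ⟨A, h1, h2⟩ := codim_three hi (τ.1 * P.h u + ⟪(u : E), τ.2⟫)
        (τ.1 * P.h v + ⟪(v : E), τ.2⟫) (τ.1 * P.h w + ⟪(w : E), τ.2⟫)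
      refine ⟨A, fun _ => ⟨h1, fun p hu hv hw => ?_⟩⟩
      have hs : τ.1 * τ.1 = 1 := by
        rcases orb_sign g hτ with h | h <;> rw [h] <;> norm_num
      have aux : ∀ x : E, ⟪x, FF24.crd τ p⟫ = P.h x → ⟪x, p⟫ = τ.1 * P.h x + ⟪x, τ.2⟫ := by
        intro x hx
        rw [← hx]
        unfold FF24.crd
        rw [inner_smul_right, inner_sub_right, ← mul_assoc, hs, one_mul]
        ring
      exact h2 p (aux u hu) (aux v hv) (aux w hw)
    · exact ⟨⊥, fun h => absurd h hi⟩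
  choose A hA using key
  refine ⟨Set.range (fun q : {q : ι // LinearIndependent ℝ ![(q.2.1 : E), (q.2.2.1 : E),
    (q.2.2.2 : E)]} => A q.1), Set.countable_range _, ?_, ?_⟩
  · rintro _ ⟨q, rfl⟩
    exact (hA q.1 q.2).1
  · rintro z ⟨τ, u, hu, v, hv, w, hw, hi, h1, h2, h3⟩
    refine ⟨A ⟨τ, ⟨u, hu⟩, ⟨v, hv⟩, ⟨w, hw⟩⟩, ⟨⟨⟨τ, ⟨u, hu⟩, ⟨v, hv⟩, ⟨w, hw⟩⟩, hi⟩, rfl⟩, ?_⟩
    exact (hA ⟨τ, ⟨u, hu⟩, ⟨v, hv⟩, ⟨w, hw⟩⟩ hi).2 z h1 h2 h3

end Pool.FF85
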