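import Mathlib
import Pool.Agent.FF24.Defs
import Pool.Agent.FF65.Cov
import Pool.Agent.FF85.BadCov

set_option autoImplicit false

/-!
# FF85/TileCov: the tiles of a gluing: size, ball inside, closed, convex, local finiteness, covering
-/

open Set Filter Topology Metric
open scoped RealInnerProductSpace

namespace Pool.FF85

variable {E : Type*} [NormedAddCommGroup E] [InnerProductSpace ℝ E]

section
variable {P : FF24.HPoly E} (g : FF24.Glue P)

theorem sign_sq (τ : g.Lab) : τ.1.1 * τ.1.1 = 1 := by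
  rcases orb_sign g τ.2 with h | h <;> rw [h] <;> norm_num

theorem norm_sign_smul (τ : g.Lab) (v : E) : ‖τ.1.1 • v‖ = ‖v‖ := by
  rcases orb_sign g τ.2 with h | h <;> rw [h] <;> simp

theorem crd_sub (τ : g.Lab) (x y : E) :
    FF24.crd τ.1 x - FF24.crd τ.1 y = τ.1.1 • (x - y) := by
  unfold FF24.crd
  rw [← smul_sub]
  congr 1
  abel

theorem crd_X (τ : g.Lab) (z : E) : FF24.crd τ.1 (FF24.X τ.1 z) = z := by
  unfold FF24.crd FF24.X
  rw [add_sub_cancel_right, smul_smul, sign_sq, one_smul]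

theorem X_crd (τ : g.Lab) (p : E) : FF24.X τ.1 (FF24.crd τ.1 p) = p := by
  unfold FF24.crd FF24.X
  rw [smul_smul, sign_sq, one_smul, sub_add_cancel]

theorem continuous_crd (τ : ℝ × E) : Continuous (FF24.crd τ) := by
  unfold FF24.crd
  fun_prop

theorem body_closed (P : FF24.HPoly E) : IsClosed P.body := by
  have h : P.body = ⋂ u ∈ P.N, {z : E | ⟪u, z⟫ ≤ P.h u} := by
    ext z
    simp [FF24.HPoly.body]
  rw [h]
  refine isClosed_biInter fun u _ => ?_
  exact isClosed_le (by fun_prop) continuous_const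

theorem body_convex (P : FF24.HPoly E) : Convex ℝ P.body := by
  intro x hx y hy a b ha hb hab u hu
  rw [inner_add_right, inner_smul_right, inner_smul_right]
  have h1 := mul_le_mul_of_nonneg_left (hx u hu) ha
  have h2 := mul_le_mul_of_nonneg_left (hy u hu) hb
  have h3 : a * P.h u + b * P.h u = P.h u := by rw [← add_mul, hab, one_mul]
  linarith

theorem K_closed (τ : g.Lab) : IsClosed (g.K τ) :=
  (body_closed P).preimage (continuous_crd τ.1)

theorem K_convex (τ : g.Lab) : Convex ℝ (g.K τ) := by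
  intro x hx y hy a b ha hb hab
  have h : FF24.crd τ.1 (a • x + b • y) = a • FF24.crd τ.1 x + b • FF24.crd τ.1 y := by
    unfold FF24.crd
    rw [smul_comm a, smul_comm b, ← smul_add]
    congr 1
    have h1 : τ.1.2 = a • τ.1.2 + b • τ.1.2 := by rw [← add_smul, hab, one_smul]
    rw [smul_sub, smul_sub]
    nth_rewrite 1 [h1]
    abel
  show FF24.crd τ.1 (a • x + b • y) ∈ P.body
  rw [h]
  exact body_convex P hx hy ha hb hab

/-- a point in the interior of the polytope is in the topological interior -/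
theorem strict_open (P : FF24.HPoly E) : IsOpen {z : E | ∀ u ∈ P.N, ⟪u, z⟫ < P.h u} := by
  have h : {z : E | ∀ u ∈ P.N, ⟪u, z⟫ < P.h u} = ⋂ u ∈ P.N, {z : E | ⟪u, z⟫ < P.h u} := by
    ext z
    simp
  rw [h]
  exact isOpen_biInter_finset fun u _ => isOpen_lt (by fun_prop) continuous_const

theorem strict_subset_interior (P : FF24.HPoly E) :
    {z : E | ∀ u ∈ P.N, ⟪u, z⟫ < P.h u} ⊆ interior P.body :=
  interior_maximal (fun _ hz u hu => (hz u hu).le) (strict_open P)

/-- the interior of the polytope -/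
theorem interior_body (P : FF24.HPoly E) :
    interior P.body = {z : E | ∀ u ∈ P.N, ⟪u, z⟫ < P.h u} := by
  refine Subset.antisymm ?_ (strict_subset_interior P)
  intro z hz u hu
  have h0 : z ∈ P.body := interior_subset hz
  refine lt_of_le_of_ne (h0 u hu) fun heq => ?_
  have h1 : Tendsto (fun t : ℝ => z + t • u) (𝓝[>] 0) (𝓝 z) := by
    have h2 : Continuous (fun t : ℝ => z + t • u) := by fun_prop
    have h3 := h2.tendsto 0
    rw [zero_smul, add_zero] at h3
    exact h3.mono_left nhdsWithin_le_nhds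
  have h4 : ∀ᶠ t : ℝ in 𝓝[>] 0, z + t • u ∈ P.body :=
    h1.eventually (mem_interior_iff_mem_nhds.1 hz)
  obtain ⟨t, ht1, ht2⟩ := (h4.and self_mem_nhdsWithin).exists
  have h5 := ht1 u hu
  rw [inner_add_right, inner_smul_right, heq, real_inner_self_eq_norm_sq, P.unit u hu] at h5
  have ht3 : (0 : ℝ) < t := ht2
  linarith

/-- bounded size and a ball inside, uniformly -/
theorem lab_bounds : ∃ D ρ : ℝ, 0 < ρ ∧ (∀ τ : g.Lab, ∀ x ∈ g.K τ, ∀ y ∈ g.K τ, dist x y ≤ D) ∧
    ∀ τ : g.Lab, ∃ c, ball c ρ ⊆ g.K τ := by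
  obtain ⟨r, hr⟩ := P.bdd
  obtain ⟨z₀, hz₀⟩ := P.int
  obtain ⟨ρ, hρ, hball⟩ := Metric.isOpen_iff.1 (strict_open P) z₀ hz₀
  refine ⟨r + r, ρ, hρ, ?_, ?_⟩
  · intro τ x hx y hy
    have h1 := hr _ hx
    have h2 := hr _ hy
    rw [dist_eq_norm, ← norm_sign_smul g τ, ← crd_sub g τ]
    exact (norm_sub_le _ _).trans (add_le_add h1 h2)
  · intro τ
    refine ⟨FF24.X τ.1 z₀, fun p hp => ?_⟩
    have h3 : FF24.crd τ.1 p ∈ ball z₀ ρ := by
      rw [mem_ball, dist_eq_norm]
      have h4 : FF24.crd τ.1 p - z₀ = τ.1.1 • (p - FF24.X τ.1 z₀) := by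
        rw [← crd_sub g τ, crd_X]
      rw [h4, norm_sign_smul]
      rw [mem_ball, dist_eq_norm] at hp
      exact hp
    intro u hu
    exact (hball h3 u hu).le

end

variable [FiniteDimensional ℝ E] {P : FF24.HPoly E} (g : FF24.Glue P)

/-- LOCAL FINITENESS -/
theorem lab_locally_finite
    (hdisj : ∀ τ σ : g.Lab, τ ≠ σ → Disjoint (interior (g.K τ)) (interior (g.K σ))) (x : E)
    (r : ℝ) : {τ : g.Lab | (g.K τ ∩ closedBall x r).Nonempty}.Finite := by
  obtain ⟨D, ρ, hρ, h1, h2⟩ := lab_bounds g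
  exact FF65.tiles_locally_finite g.K hρ h1 h2 hdisj x r

/-- COVERING, from a dense set -/
theorem lab_cover
    (hdisj : ∀ τ σ : g.Lab, τ ≠ σ → Disjoint (interior (g.K τ)) (interior (g.K σ)))
    (hdense : Dense (⋃ τ : g.Lab, g.K τ)) : ⋃ τ : g.Lab, g.K τ = univ := by
  obtain ⟨D, ρ, hρ, h1, h2⟩ := lab_bounds g
  exact FF65.tiles_cover g.K hρ h1 h2 hdisj (K_closed g) hdense

/-- COVERING, from generic points -/
theorem lab_cover_generic
    (hdisj : ∀ τ σ : g.Lab, τ ≠ σ → Disjoint (interior (g.K τ)) (interior (g.K σ)))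
    (hgen : ∀ᶠ w in residual E, ∃ τ : g.Lab, w ∈ g.K τ) : ∀ x : E, ∃ τ : g.Lab, x ∈ g.K τ := by
  have : CompleteSpace E := FiniteDimensional.complete ℝ E
  have h1 : Dense {w : E | ∃ τ : g.Lab, w ∈ g.K τ} := dense_of_mem_residual hgen
  have h2 : Dense (⋃ τ : g.Lab, g.K τ) := by
    refine h1.mono ?_
    rintro w ⟨τ, hτ⟩
    exact mem_iUnion.2 ⟨τ, hτ⟩
  have h3 := lab_cover g hdisj h2
  intro x
  have h4 : x ∈ ⋃ τ : g.Lab, g.K τ := h3 ▸ mem_univ x
  exact mem_iUnion.1 h4

end Pool.FF85
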