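import Pool.Agent.FF79.Nec
import Pool.Agent.FF79.Suf
import Pool.Agent.FF79.Uniq

set_option autoImplicit false

/-!
# FF85/Amb: facet-to-facet tilings without coherence, when no facet is ambiguous or the polytope is centrally symmetric
-/

open Set Metric
open scoped RealInnerProductSpace

namespace Pool.FF85

open Pool.FF24 Pool.FF79

variable {E : Type*} [NormedAddCommGroup E] [InnerProductSpace ℝ E]

/-- `T` is a facet-to-facet tiling by translates and negatives of `P` (no condition on the signs) -/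
structure IsFF (P : HPoly E) (T : Set (ℝ × E)) : Prop where
  sign : ∀ τ ∈ T, τ.1 = 1 ∨ τ.1 = -1
  cover : ∀ x : E, ∃ τ ∈ T, x ∈ X τ '' P.body
  disj : ∀ τ ∈ T, ∀ σ ∈ T, τ ≠ σ →
    Disjoint (interior (X τ '' P.body)) (interior (X σ '' P.body))
  facet : ∀ τ ∈ T, ∀ u ∈ P.N, ∃ σ ∈ T, σ ≠ τ ∧ ∃ v ∈ P.N, X σ '' P.fc v = X τ '' P.fc u

/-- the facet `u` is centrally symmetric -/
def Sym (P : HPoly E) (u : E) : Prop := ∃ c : E, ∀ z ∈ P.fc u, c - z ∈ P.fc u

/-- the opposite facet is a translate of the facet `u` -/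
def Tra (P : HPoly E) (u : E) : Prop :=
  -u ∈ P.N ∧ ∃ c : E, (fun z => z + c) '' P.fc u = P.fc (-u)

theorem IsTiling.isFF {P : HPoly E} {I : Set E} {T : Set (ℝ × E)} (hT : IsTiling P I T) :
    IsFF P T where
  sign := hT.sign
  cover := hT.cover
  disj := hT.disj
  facet := fun τ hτ u hu => by
    obtain ⟨σ, hσ, h1, -, v, hv, h3⟩ := hT.facet τ hτ u hu
    exact ⟨σ, hσ, h1, v, hv, h3⟩

theorem smul_sign_cancel {e : ℝ} (he : e = 1 ∨ e = -1) {x y : E} (h : e • x = e • y) : x = y := by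
  rcases he with rfl | rfl
  · simpa using h
  · simpa using h

/-- two tiles with a common facet: opposite signs -/
theorem sym_of_common {P : HPoly E} {τ σ : ℝ × E} (hτ : τ.1 = 1 ∨ τ.1 = -1)
    (hσ : σ.1 = -τ.1) {u : E} (hF : X σ '' P.fc u = X τ '' P.fc u) : Sym P u := by
  refine ⟨τ.1 • (σ.2 - τ.2), fun z hz => ?_⟩
  have h1 : X τ z ∈ X σ '' P.fc u := by
    rw [hF]
    exact mem_image_of_mem _ hz
  obtain ⟨z', hz', h2⟩ := h1
  have h3 : z' = τ.1 • (σ.2 - τ.2) - z := by
    refine smul_sign_cancel hτ ?_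
    have hs := sq_of_sign hτ
    rw [smul_sub, smul_smul, hs, one_smul]
    unfold X at h2
    rw [hσ, neg_smul] at h2
    -- -τ z' + σ.2 = τ z + τ.2
    have h4 : σ.2 - τ.2 - τ.1 • z - τ.1 • z' = 0 := by
      have h5 : -(τ.1 • z') + σ.2 - (τ.1 • z + τ.2) = 0 := sub_eq_zero.2 h2
      rw [← h5]
      abel
    exact (sub_eq_zero.1 h4).symm
  rwa [← h3]

/-- two tiles with a common facet: the same sign -/
theorem tra_of_common {P : HPoly E} {τ σ : ℝ × E} (hτ : τ.1 = 1 ∨ τ.1 = -1)
    (hσ : σ.1 = τ.1) {u : E} (hu : -u ∈ P.N) (hF : X σ '' P.fc (-u) = X τ '' P.fc u) :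
    Tra P u := by
  have hs := sq_of_sign hτ
  have key : ∀ z z', X σ z' = X τ z → z' = z + τ.1 • (τ.2 - σ.2) := by
    intro z z' h2
    refine smul_sign_cancel hτ ?_
    rw [smul_add, smul_smul, hs, one_smul]
    unfold X at h2
    rw [hσ] at h2
    have h5 : τ.1 • z' + σ.2 - (τ.1 • z + τ.2) = 0 := sub_eq_zero.2 h2
    have h4 : τ.1 • z' - (τ.1 • z + (τ.2 - σ.2)) = 0 := by
      rw [← h5]
      abel
    exact sub_eq_zero.1 h4
  refine ⟨hu, τ.1 • (τ.2 - σ.2), Subset.antisymm ?_ ?_⟩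
  · rintro _ ⟨z, hz, rfl⟩
    have h1 : X τ z ∈ X σ '' P.fc (-u) := by
      rw [hF]
      exact mem_image_of_mem _ hz
    obtain ⟨z', hz', h2⟩ := h1
    show z + τ.1 • (τ.2 - σ.2) ∈ P.fc (-u)
    rw [← key z z' h2]
    exact hz'
  · intro z' hz'
    have h1 : X σ z' ∈ X τ '' P.fc u := by
      rw [← hF]
      exact mem_image_of_mem _ hz'
    obtain ⟨z, hz, h2⟩ := h1
    exact ⟨z, hz, (key z z' h2.symm).symm⟩

/-- two tiles with a common facet -/
theorem common (P : HPoly E) {τ σ : ℝ × E} (hτ : τ.1 = 1 ∨ τ.1 = -1) (hσ : σ.1 = 1 ∨ σ.1 = -1)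
    {u v : E} (hu : u ∈ P.N) (hv : v ∈ P.N)
    (hd : Disjoint (interior (X τ '' P.body)) (interior (X σ '' P.body)))
    (hF : X σ '' P.fc v = X τ '' P.fc u) :
    (σ.1 = -τ.1 ∧ v = u ∧ Sym P u) ∨ (σ.1 = τ.1 ∧ v = -u ∧ Tra P u) := by
  have hn := facet_normal P hτ hσ hu hv hd hF
  have hcases : σ.1 = -τ.1 ∨ σ.1 = τ.1 := by
    rcases hτ with h | h <;> rcases hσ with h' | h' <;> rw [h, h'] <;> norm_num
  rcases hcases with h | h
  · left
    have hvu : v = u := by
      rw [h, neg_smul, neg_inj] at hn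
      exact smul_sign_cancel hτ hn
    subst hvu
    exact ⟨h, rfl, sym_of_common hτ h hF⟩
  · right
    have hvu : v = -u := by
      rw [h, ← smul_neg] at hn
      exact smul_sign_cancel hτ hn
    subst hvu
    exact ⟨h, rfl, tra_of_common hτ h hv hF⟩

/-- WITHOUT AMBIGUOUS FACETS every facet-to-facet tiling is coherent -/
theorem isTiling_of_noAmb {P : HPoly E} (hamb : ∀ u ∈ P.N, ¬ (Sym P u ∧ Tra P u))
    {T : Set (ℝ × E)} (hT : IsFF P T) : IsTiling P {u | Sym P u} T where
  sign := hT.sign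
  cover := hT.cover
  disj := hT.disj
  facet := fun τ hτ u hu => by
    obtain ⟨σ, hσ, h1, v, hv, h3⟩ := hT.facet τ hτ u hu
    refine ⟨σ, hσ, h1, ?_, v, hv, h3⟩
    rcases common P (hT.sign τ hτ) (hT.sign σ hσ) hu hv (hT.disj τ hτ σ hσ h1.symm) h3 with
      ⟨a, b, c⟩ | ⟨a, b, c⟩
    · exact Or.inl ⟨c, a⟩
    · exact Or.inr ⟨fun h => hamb u hu ⟨h, c⟩, a⟩

/-- CENTRALLY SYMMETRIC POLYTOPES: the tiling is a tiling by translates after a change of the labels -/
theorem isTiling_of_symm {P : HPoly E} {c₀ : E} (hP : ∀ z ∈ P.body, c₀ - z ∈ P.body)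
    {T : Set (ℝ × E)} (hT : IsFF P T) : ∃ T', IsTiling P ∅ T' := by
  classical
  -- the new label
  let f : ℝ × E → ℝ × E := fun τ => if τ.1 = 1 then τ else (1, τ.2 - c₀)
  have hf1 : ∀ τ ∈ T, (f τ).1 = 1 := by
    intro τ hτ
    show (if τ.1 = 1 then τ else (1, τ.2 - c₀)).1 = 1
    split_ifs with h
    · exact h
    · rfl
  -- the reflected facets
  have hP' : ∀ z, z ∈ P.body ↔ c₀ - z ∈ P.body := by
    intro z
    refine ⟨hP z, fun h => ?_⟩
    have h1 := hP _ h
    rwa [sub_sub_cancel] at h1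
  have hneg : ∀ u ∈ P.N, -u ∈ P.N ∧ ∀ z, z ∈ P.fc u ↔ c₀ - z ∈ P.fc (-u) := by
    intro u hu
    obtain ⟨z, hz, hz'⟩ := P.real u hu
    have hzu : ⟪u, z⟫ = P.h u := (hz' u hu).2 rfl
    -- the point `c₀ - z` is on the boundary
    have hmax : ∀ w ∈ P.body, ⟪-u, w⟫ ≤ ⟪-u, c₀ - z⟫ := by
      intro w hw
      have h1 := hP w hw u hu
      rw [inner_sub_right] at h1
      rw [inner_neg_left, inner_neg_left, inner_sub_right]
      linarith
    -- an active normal at `c₀ - z`, it must be `-u`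
    have hact : ∃ v ∈ P.N, ⟪v, c₀ - z⟫ = P.h v := by
      by_contra hcon
      push Not at hcon
      have h2 : c₀ - z ∈ interior P.body := by
        rw [interior_body]
        intro v hv
        exact lt_of_le_of_ne (hP z hz v hv) (hcon v hv)
      obtain ⟨ρ, hρ, hball⟩ := Metric.isOpen_iff.1 isOpen_interior _ h2
      have h3 : c₀ - z - (ρ / 2) • u ∈ P.body := by
        apply interior_subset
        apply hball
        rw [mem_ball, dist_eq_norm]
        have : c₀ - z - (ρ / 2) • u - (c₀ - z) = -((ρ / 2) • u) := by abel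
        rw [this, norm_neg, norm_smul, P.unit u hu, Real.norm_of_nonneg (by positivity)]
        linarith
      have h4 := hmax _ h3
      rw [inner_sub_right (-u), inner_smul_right, inner_neg_left u u,
        real_inner_self_eq_norm_sq, P.unit u hu] at h4
      linarith
    obtain ⟨v, hv, hvz⟩ := hact
    -- all points of the facet near `z` show `v = -u`
    have hvu : v = -u := by
      -- the functional `v` has its maximum over `body` at `c₀ - z`, so `-v` has its maximum at `z`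
      have h5 : ∀ w ∈ P.body, ⟪-v, w⟫ ≤ ⟪-v, z⟫ := by
        intro w hw
        have h6 := hP w hw v hv
        rw [← hvz, inner_sub_right, inner_sub_right] at h6
        rw [inner_neg_left, inner_neg_left]
        linarith
      -- `z` is in the relative interior of the facet `u`: `-v` is a multiple of `u`
      obtain ⟨W, hWo, hzW, hW⟩ := fc_near hu hz hz'
      obtain ⟨ρ, hρ, hball⟩ := Metric.isOpen_iff.1 hWo z hzW
      have h7 : ∀ w : E, ⟪u, w⟫ = 0 → ⟪v, w⟫ = 0 := by
        intro w hw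
        by_cases hw0 : w = 0
        · rw [hw0, inner_zero_right]
        have hwn : 0 < ‖w‖ := norm_pos_iff.2 hw0
        have h8 : ∀ e : ℝ, |e| * ‖w‖ < ρ → 0 ≤ e * ⟪v, w⟫ := by
          intro e he
          have h9 : z + e • w ∈ W := by
            apply hball
            rw [mem_ball, dist_eq_norm, add_sub_cancel_left, norm_smul, Real.norm_eq_abs]
            exact he
          have h10 := hW _ h9
          rw [inner_add_right, inner_smul_right, hw, mul_zero, add_zero, hzu, sub_self, zero_smul,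
            sub_zero] at h10
          have h11 := h5 _ h10.1
          rw [inner_add_right, inner_smul_right, inner_neg_left v w] at h11
          linarith
        have h12 : (0 : ℝ) < ρ / (2 * ‖w‖) := by positivity
        have h13 : ρ / (2 * ‖w‖) * ‖w‖ < ρ := by
          have h14 : ρ / (2 * ‖w‖) * ‖w‖ = ρ / 2 := by field_simp
          rw [h14]
          linarith
        have h15 := h8 (ρ / (2 * ‖w‖)) (by rw [abs_of_pos h12]; exact h13)
        have h16 := h8 (-(ρ / (2 * ‖w‖))) (by rw [abs_neg, abs_of_pos h12]; exact h13)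
        have h17 : 0 ≤ ⟪v, w⟫ := (mul_nonneg_iff_of_pos_left h12).1 h15
        have h18 : 0 ≤ -⟪v, w⟫ := by
          rw [neg_mul, ← mul_neg] at h16
          exact (mul_nonneg_iff_of_pos_left h12).1 h16
        linarith
      have h8 : v = ⟪u, v⟫ • u := by
        have h9 := h7 (v - ⟪u, v⟫ • u) (by
          rw [inner_sub_right, inner_smul_right, real_inner_self_eq_norm_sq, P.unit u hu]
          ring)
        have h9' : ⟪u, v - ⟪u, v⟫ • u⟫ = 0 := by
          rw [inner_sub_right, inner_smul_right, real_inner_self_eq_norm_sq, P.unit u hu]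
          ring
        have h10 : ⟪v - ⟪u, v⟫ • u, v - ⟪u, v⟫ • u⟫ = 0 := by
          rw [inner_sub_left, h9, inner_smul_left, h9']
          simp
        exact sub_eq_zero.1 (inner_self_eq_zero.1 h10)
      have h9 : ⟪u, v⟫ = 1 ∨ ⟪u, v⟫ = -1 := by
        have h10 := congrArg norm h8
        rw [norm_smul, P.unit u hu, P.unit v hv, mul_one, Real.norm_eq_abs] at h10
        rcases abs_eq (zero_le_one (α := ℝ)) |>.1 h10.symm with h | h
        · exact Or.inl h
        · exact Or.inr h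
      rcases h9 with h9 | h9
      · -- `v = u`: then the maximum and the minimum of `u` agree
        exfalso
        rw [h9, one_smul] at h8
        subst h8
        obtain ⟨z₀, hz₀⟩ := P.int
        have h10 := h5 z₀ fun w hw => (hz₀ w hw).le
        rw [inner_neg_left, inner_neg_left, hzu] at h10
        have h11 := hz₀ v hv
        linarith
      · rw [h9, neg_smul, one_smul] at h8
        exact h8
    subst hvu
    refine ⟨hv, fun y => ?_⟩
    have hh : P.h (-u) = -⟪u, c₀⟫ + P.h u := by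
      rw [← hvz, inner_neg_left, inner_sub_right, hzu]
      ring
    constructor
    · rintro ⟨h1, h2⟩
      refine ⟨hP y h1, ?_⟩
      rw [inner_neg_left, inner_sub_right, h2, hh]
      ring
    · rintro ⟨h1, h2⟩
      refine ⟨(hP' y).2 h1, ?_⟩
      rw [inner_neg_left, inner_sub_right, hh] at h2
      linarith
  -- facets of the relabelled tiles
  have hfc : ∀ τ ∈ T, ∀ u ∈ P.N, ∃ u' ∈ P.N, X (f τ) '' P.fc u = X τ '' P.fc u' := by
    intro τ hτ u hu
    by_cases h : τ.1 = 1
    · refine ⟨u, hu, ?_⟩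
      have : f τ = τ := if_pos h
      rw [this]
    · have hm : τ.1 = -1 := (hT.sign τ hτ).resolve_left h
      refine ⟨-u, (hneg u hu).1, ?_⟩
      have hfτ : f τ = (1, τ.2 - c₀) := if_neg h
      rw [hfτ]
      have hX : ∀ z, X ((1, τ.2 - c₀) : ℝ × E) z = X τ (c₀ - z) := by
        intro z
        unfold X
        rw [hm]
        simp only [one_smul, neg_smul]
        abel
      ext p
      constructor
      · rintro ⟨z, hz, rfl⟩
        exact ⟨c₀ - z, ((hneg u hu).2 z).1 hz, (hX z).symm⟩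
      · rintro ⟨z, hz, rfl⟩
        refine ⟨c₀ - z, ?_, ?_⟩
        · rw [(hneg u hu).2, sub_sub_cancel]
          exact hz
        · rw [hX, sub_sub_cancel]
  have hfc' : ∀ τ ∈ T, ∀ u ∈ P.N, ∃ u' ∈ P.N, X τ '' P.fc u = X (f τ) '' P.fc u' := by
    intro τ hτ u hu
    by_cases h : τ.1 = 1
    · refine ⟨u, hu, ?_⟩
      have : f τ = τ := if_pos h
      rw [this]
    · have hm : τ.1 = -1 := (hT.sign τ hτ).resolve_left h
      refine ⟨-u, (hneg u hu).1, ?_⟩
      have hfτ : f τ = (1, τ.2 - c₀) := if_neg h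
      rw [hfτ]
      have hX : ∀ z, X ((1, τ.2 - c₀) : ℝ × E) z = X τ (c₀ - z) := by
        intro z
        unfold X
        rw [hm]
        simp only [one_smul, neg_smul]
        abel
      ext p
      constructor
      · rintro ⟨z, hz, rfl⟩
        refine ⟨c₀ - z, ((hneg u hu).2 z).1 hz, ?_⟩
        rw [hX, sub_sub_cancel]
      · rintro ⟨z, hz, rfl⟩
        refine ⟨c₀ - z, ?_, ?_⟩
        · rw [(hneg u hu).2, sub_sub_cancel]
          exact hz
        · rw [hX]
  have hbody : ∀ τ ∈ T, X (f τ) '' P.body = X τ '' P.body := by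
    intro τ hτ
    by_cases h : τ.1 = 1
    · have : f τ = τ := if_pos h
      rw [this]
    · have hm : τ.1 = -1 := (hT.sign τ hτ).resolve_left h
      have hfτ : f τ = (1, τ.2 - c₀) := if_neg h
      rw [hfτ]
      have hX : ∀ z, X ((1, τ.2 - c₀) : ℝ × E) z = X τ (c₀ - z) := by
        intro z
        unfold X
        rw [hm]
        simp only [one_smul, neg_smul]
        abel
      ext p
      constructor
      · rintro ⟨z, hz, rfl⟩
        exact ⟨c₀ - z, hP z hz, (hX z).symm⟩
      · rintro ⟨z, hz, rfl⟩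
        refine ⟨c₀ - z, hP z hz, ?_⟩
        rw [hX, sub_sub_cancel]
  refine ⟨f '' T, ?_, ?_, ?_, ?_⟩
  · rintro _ ⟨τ, hτ, rfl⟩
    exact Or.inl (hf1 τ hτ)
  · intro x
    obtain ⟨τ, hτ, h⟩ := hT.cover x
    exact ⟨f τ, mem_image_of_mem _ hτ, by rw [hbody τ hτ]; exact h⟩
  · rintro _ ⟨τ, hτ, rfl⟩ _ ⟨σ, hσ, rfl⟩ hne
    rw [hbody τ hτ, hbody σ hσ]
    exact hT.disj τ hτ σ hσ fun h => hne (congrArg f h)
  · rintro _ ⟨τ, hτ, rfl⟩ u hu
    obtain ⟨u', hu', h1⟩ := hfc τ hτ u hu
    obtain ⟨σ, hσ, hne, v, hv, h2⟩ := hT.facet τ hτ u' hu'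
    obtain ⟨v', hv', h3⟩ := hfc' σ hσ v hv
    refine ⟨f σ, mem_image_of_mem _ hσ, ?_, Or.inr ⟨notMem_empty _, ?_⟩, v', hv', ?_⟩
    · intro h
      have h4 := hT.disj τ hτ σ hσ hne.symm
      rw [← hbody τ hτ, ← hbody σ hσ, h] at h4
      have h5 : (interior (X (f τ) '' P.body)).Nonempty := by
        rw [interior_X (Or.inl (hf1 τ hτ))]
        exact (interior_body_nonempty P).image _
      rw [disjoint_self] at h4
      exact h5.ne_empty h4
    · rw [hf1 τ hτ, hf1 σ hσ]
    · rw [← h3, h2, h1]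

/-- THE CHARACTERISATION for polytopes which are centrally symmetric or have no ambiguous facet -/
theorem ff_iff [FiniteDimensional ℝ E] (P : HPoly E)
    (hP : (∃ c₀, ∀ z ∈ P.body, c₀ - z ∈ P.body) ∨ ∀ u ∈ P.N, ¬ (Sym P u ∧ Tra P u)) :
    (∃ T, IsFF P T) ↔ ∃ g : Glue P, g.Cyc := by
  constructor
  · rintro ⟨T, hT⟩
    rcases hP with ⟨c₀, hc⟩ | hamb
    · obtain ⟨T', hT'⟩ := isTiling_of_symm hc hT
      obtain ⟨g, -, hC⟩ := nec P hT'
      exact ⟨g, hC⟩
    · obtain ⟨g, -, hC⟩ := nec P (isTiling_of_noAmb hamb hT)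
      exact ⟨g, hC⟩
  · rintro ⟨g, hC⟩
    exact ⟨_, IsTiling.isFF (suf g hC)⟩

end Pool.FF85
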