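import Pool.Agent.FF24.Stars
import Pool.Agent.FF24.Gal
import Pool.Agent.FF65.Over
import Pool.Agent.FF65.Gen
import Pool.Agent.FF85.TileCov

set_option autoImplicit false

/-!
# FF85/Suff: the tiles of a gluing with the ridge condition do not overlap and cover
-/

open Set Filter Topology Metric
open scoped RealInnerProductSpace

namespace Pool.FF85

open Pool.FF24

variable {E : Type*} [NormedAddCommGroup E] [InnerProductSpace ℝ E] [FiniteDimensional ℝ E]
  {P : HPoly E} (g : Glue P)

/-- residual points are generic -/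
theorem gen : FF65.Gen g.Bad (residual E) := by
  obtain ⟨AA, h1, h2, h3⟩ := bad_cover g
  exact ⟨FF65.generic_off AA h1 h2 h3, fun w hw => FF65.generic_segment AA h1 h2 h3 hw,
    fun w w' hseg => FF65.generic_triangle AA h1 h2 h3 hseg,
    fun U hU hne => FF65.generic_frequently hU hne⟩

theorem reach (τ σ : g.Lab) : FF65.Reach g.Bad g.R τ σ := gallery g τ σ

theorem no_overlap (hC : g.Cyc) {τ σ : g.Lab} (h : τ ≠ σ) :
    Disjoint (interior (g.K τ)) (interior (g.K σ)) := by
  rw [Set.disjoint_iff_inter_eq_empty]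
  by_contra hne
  exact h (FF65.no_overlap (stars g hC) (gen g) (fun τ => (K_closure g τ).1)
    (fun p τ σ _ hp hR => R_interior g hp hR) (reach g τ σ) (Set.nonempty_iff_ne_empty.2 hne))

theorem cover (hC : g.Cyc) (x : E) : ∃ τ : g.Lab, x ∈ g.K τ := by
  have h1 := FF65.cover_dense (stars g hC) (gen g) (τ := ⟨(1, 0), Glue.Orb.base⟩)
    (K_closure g _).1
  have h2 : Dense (⋃ τ : g.Lab, g.K τ) :=
    h1.mono (iUnion₂_subset fun σ _ => subset_iUnion g.K σ)
  have h3 := lab_cover g (fun τ σ h => no_overlap g hC h) h2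
  have h4 : x ∈ ⋃ τ : g.Lab, g.K τ := h3 ▸ mem_univ x
  exact mem_iUnion.1 h4

omit [FiniteDimensional ℝ E] in
/-- the tile as an image -/
theorem image_eq_K (τ : g.Lab) : X τ.1 '' P.body = g.K τ := by
  ext p
  constructor
  · rintro ⟨z, hz, rfl⟩
    show crd τ.1 (X τ.1 z) ∈ P.body
    rw [crd_X]
    exact hz
  · intro hp
    exact ⟨crd τ.1 p, hp, X_crd g τ p⟩

theorem orb_cover (hC : g.Cyc) (x : E) : ∃ τ, g.Orb τ ∧ x ∈ X τ '' P.body := by
  obtain ⟨τ, hτ⟩ := cover g hC x
  exact ⟨τ.1, τ.2, by rw [image_eq_K]; exact hτ⟩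

theorem orb_no_overlap (hC : g.Cyc) {τ σ : ℝ × E} (hτ : g.Orb τ) (hσ : g.Orb σ)
    (h : τ ≠ σ) : Disjoint (interior (X τ '' P.body)) (interior (X σ '' P.body)) := by
  have h1 := no_overlap g hC (τ := ⟨τ, hτ⟩) (σ := ⟨σ, hσ⟩) fun h' => h (congrArg Subtype.val h')
  rw [← image_eq_K, ← image_eq_K] at h1
  exact h1

omit [FiniteDimensional ℝ E] in
/-- the neighbour has the same facet -/
theorem orb_facet {τ : ℝ × E} (hτ : g.Orb τ) {u : E} (hu : u ∈ P.N) :
    g.nb u τ ≠ τ ∧ ((u ∈ g.I ∧ (g.nb u τ).1 = -τ.1) ∨ (u ∉ g.I ∧ (g.nb u τ).1 = τ.1)) ∧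
      X (g.nb u τ) '' P.fc (g.star u) = X τ '' P.fc u := by
  have hs : τ.1 * τ.1 = 1 := sign_sq g ⟨τ, hτ⟩
  have hs0 : τ.1 ≠ 0 := by
    intro h
    rw [h, zero_mul] at hs
    exact zero_ne_one hs
  -- `X (nb u τ) (j u z) = X τ z`
  have key : ∀ z, X (g.nb u τ) (g.j u z) = X τ z := by
    intro z
    unfold X Glue.nb Glue.j
    split_ifs with hI
    · simp only [smul_sub, neg_smul]
      abel
    · simp only [smul_add]
      abel
  refine ⟨?_, ?_, ?_⟩
  · intro h
    by_cases hI : u ∈ g.I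
    · have h1 := congrArg Prod.fst h
      unfold Glue.nb at h1
      rw [if_pos hI] at h1
      have h2 : τ.1 = 0 := by
        have : -τ.1 = τ.1 := h1
        linarith
      exact hs0 h2
    · -- the translation vector is not zero
      have h1 := congrArg Prod.snd h
      unfold Glue.nb at h1
      rw [if_neg hI] at h1
      have h2 : τ.1 • g.c u = 0 := by
        have : τ.2 - τ.1 • g.c u = τ.2 := h1
        simpa using this
      have hc : g.c u = 0 := (smul_eq_zero.1 h2).resolve_left hs0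
      obtain ⟨z, hz⟩ := fc_nonempty hu
      have h3 := g.tr u hu hI z hz
      rw [hc, add_zero] at h3
      obtain ⟨z₀, hz₀⟩ := P.int
      have h4 := hz₀ u hu
      have h5 := hz₀ (-u) (g.negN u hu hI)
      rw [inner_neg_left] at h5
      have h6 : ⟪u, z⟫ = P.h u := hz.2
      have h7 : ⟪-u, z⟫ = P.h (-u) := h3.2
      rw [inner_neg_left] at h7
      linarith
  · by_cases hI : u ∈ g.I
    · left
      refine ⟨hI, ?_⟩
      unfold Glue.nb
      rw [if_pos hI]
    · right
      refine ⟨hI, ?_⟩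
      unfold Glue.nb
      rw [if_neg hI]
  · ext p
    constructor
    · rintro ⟨z, hz, rfl⟩
      refine ⟨g.j (g.star u) z, ?_, ?_⟩
      · have h1 := j_mem g (star_mem g hu) hz
        rwa [star_star g hu] at h1
      · rw [← key]
        have h2 : g.j u (g.j (g.star u) z) = z := by
          have h3 := j_j g (star_mem g hu) z
          rwa [star_star g hu] at h3
        rw [h2]
    · rintro ⟨z, hz, rfl⟩
      exact ⟨g.j u z, j_mem g hu hz, key z⟩

end Pool.FF85
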